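import Pool.Agent.E8helper43.ER.Stm

set_option autoImplicit false

namespace Pool.Agent.E8helper29.ER

open Finset Pool.Agent.E8helper43.ER

/-- the tent -/
noncomputable def bt (T : ℕ) (x : ℝ) : ℝ := max 0 (T - |x - T|)

theorem bt_lip (T : ℕ) (x y : ℝ) : |bt T x - bt T y| ≤ |x - y| := by
  have h1 : |bt T x - bt T y| ≤ |((T : ℝ) - |x - T|) - (T - |y - T|)| := by
    unfold bt
    have := abs_max_sub_max_le_abs (T - |x - T|) (T - |y - T|) (0 : ℝ)
    rw [max_comm 0, max_comm 0]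
    exact this
  have h2 : |((T : ℝ) - |x - T|) - (T - |y - T|)| ≤ |x - y| := by
    have : ((T : ℝ) - |x - T|) - (T - |y - T|) = |y - T| - |x - T| := by ring
    rw [this]
    have h3 := abs_abs_sub_abs_le_abs_sub (y - T) (x - T)
    have h4 : (y - T) - (x - T) = -(x - y) := by ring
    rw [h4, abs_neg] at h3
    exact h3
  exact h1.trans h2

theorem bt_up (T : ℕ) (x : ℝ) (h0 : 0 ≤ x) (h1 : x ≤ T) : bt T x = x := by
  unfold bt
  rw [abs_of_nonpos (by linarith), max_eq_right (by linarith)]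
  ring

theorem bt_down (T : ℕ) (x : ℝ) (h0 : (T : ℝ) ≤ x) (h1 : x ≤ 2 * T) : bt T x = 2 * T - x := by
  unfold bt
  rw [abs_of_nonneg (by linarith), max_eq_right (by linarith)]
  ring

theorem bt_neg (T : ℕ) (x : ℝ) (h0 : x ≤ 0) : bt T x = 0 := by
  unfold bt
  rw [abs_of_nonpos (by have : (0 : ℝ) ≤ T := Nat.cast_nonneg T; linarith),
    max_eq_left (by linarith)]

theorem bt_far (T : ℕ) (x : ℝ) (h0 : 2 * T ≤ x) : bt T x = 0 := by
  unfold bt
  have hT : (0 : ℝ) ≤ T := Nat.cast_nonneg T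
  rw [abs_of_nonneg (by linarith), max_eq_left (by linarith)]

theorem term_eq (T i l : ℕ) : (if i ≤ l then bt T ((l - i : ℕ) : ℝ) else 0) = bt T ((l : ℝ) - i) := by
  split_ifs with h
  · rw [Nat.cast_sub h]
  · rw [bt_neg]
    have : (l : ℝ) ≤ i := by exact_mod_cast (not_le.1 h).le
    linarith

theorem shD_eq (T n i j : ℕ) : shD n (2 * T + 1) (fun l => bt T l) i j =
    ∑ l ∈ range (n + (2 * T + 1)), (bt T ((l : ℝ) - i) - bt T ((l : ℝ) - j)) ^ 2 := by
  unfold shD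
  refine sum_congr rfl fun l _ => ?_
  rw [term_eq, term_eq]

theorem upper (T n i j : ℕ) : shD n (2 * T + 1) (fun l => bt T l) i j ≤
    (n + (2 * T + 1)) * ((i : ℝ) - j) ^ 2 := by
  rw [shD_eq]
  have h : ∀ l ∈ range (n + (2 * T + 1)), (bt T ((l : ℝ) - i) - bt T ((l : ℝ) - j)) ^ 2 ≤
      ((i : ℝ) - j) ^ 2 := by
    intro l _
    have h1 := bt_lip T ((l : ℝ) - i) ((l : ℝ) - j)
    have h2 : ((l : ℝ) - i) - ((l : ℝ) - j) = -((i : ℝ) - j) := by ring
    rw [h2, abs_neg] at h1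
    exact sq_le_sq.2 h1
  refine (sum_le_sum h).trans ?_
  rw [sum_const, card_range, nsmul_eq_mul]
  push_cast
  exact le_refl _

theorem lower (T n i j : ℕ) (hi : i ≤ n) (hj : j ≤ n) (hT : n ≤ T) (hij : i ≤ j) :
    (2 * ((T : ℝ) - n)) * ((i : ℝ) - j) ^ 2 ≤ shD n (2 * T + 1) (fun l => bt T l) i j := by
  rw [shD_eq]
  have hd : Disjoint (Ico n T) (Ico (T + n) (2 * T)) := by
    rw [disjoint_left]
    intro x hx hy
    rw [mem_Ico] at hx hy
    omega
  have hs : Ico n T ∪ Ico (T + n) (2 * T) ⊆ range (n + (2 * T + 1)) := by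
    intro x hx
    rw [mem_union, mem_Ico, mem_Ico] at hx
    rw [mem_range]
    omega
  have h1 := sum_le_sum_of_subset_of_nonneg hs
    (f := fun l : ℕ => (bt T ((l : ℝ) - i) - bt T ((l : ℝ) - j)) ^ 2)
    (fun _ _ _ => sq_nonneg _)
  refine le_trans ?_ h1
  rw [sum_union hd]
  have hiR : (i : ℝ) ≤ n := by exact_mod_cast hi
  have hjR : (j : ℝ) ≤ n := by exact_mod_cast hj
  have hi0 : (0 : ℝ) ≤ i := Nat.cast_nonneg i
  have hj0 : (0 : ℝ) ≤ j := Nat.cast_nonneg j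
  have hTR : (n : ℝ) ≤ T := by exact_mod_cast hT
  have ha : ∑ l ∈ Ico n T, (bt T ((l : ℝ) - i) - bt T ((l : ℝ) - j)) ^ 2 =
      ((T : ℝ) - n) * ((i : ℝ) - j) ^ 2 := by
    have : ∀ l ∈ Ico n T, (bt T ((l : ℝ) - i) - bt T ((l : ℝ) - j)) ^ 2 = ((i : ℝ) - j) ^ 2 := by
      intro l hl
      rw [mem_Ico] at hl
      have hl1 : (n : ℝ) ≤ l := by exact_mod_cast hl.1
      have hl2 : (l : ℝ) ≤ T := by exact_mod_cast hl.2.le
      rw [bt_up T _ (by linarith) (by linarith), bt_up T _ (by linarith) (by linarith)]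
      ring
    rw [sum_congr rfl this, sum_const, Nat.card_Ico, nsmul_eq_mul, Nat.cast_sub hT]
  have hb : ((T : ℝ) - n) * ((i : ℝ) - j) ^ 2 ≤
      ∑ l ∈ Ico (T + n) (2 * T), (bt T ((l : ℝ) - i) - bt T ((l : ℝ) - j)) ^ 2 := by
    have : ∀ l ∈ Ico (T + n) (2 * T),
        (bt T ((l : ℝ) - i) - bt T ((l : ℝ) - j)) ^ 2 = ((i : ℝ) - j) ^ 2 := by
      intro l hl
      rw [mem_Ico] at hl
      have hl1 : (T : ℝ) + n ≤ l := by exact_mod_cast hl.1
      have hl2 : (l : ℝ) ≤ 2 * T := by exact_mod_cast hl.2.le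
      rw [bt_down T _ (by linarith) (by linarith), bt_down T _ (by linarith) (by linarith)]
      ring
    rw [sum_congr rfl this, sum_const, Nat.card_Ico, nsmul_eq_mul]
    have h3 : 2 * T - (T + n) = T - n := by omega
    rw [h3, Nat.cast_sub hT]
  rw [ha]
  linarith

theorem shD_comm (n k : ℕ) (a : ℕ → ℝ) (i j : ℕ) : shD n k a i j = shD n k a j i := by
  unfold shD
  refine sum_congr rfl fun l _ => ?_
  rw [← neg_sub, neg_sq]

theorem main (T n i j : ℕ) (hi : i ≤ n) (hj : j ≤ n) (hT : n ≤ T) :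
    |shD n (2 * T + 1) (fun l => bt T l) i j - 2 * T * ((i : ℝ) - j) ^ 2| ≤
      (2 * n + 1) * (n : ℝ) ^ 2 := by
  have hsq : ((i : ℝ) - j) ^ 2 ≤ (n : ℝ) ^ 2 := by
    have hiR : (i : ℝ) ≤ n := by exact_mod_cast hi
    have hjR : (j : ℝ) ≤ n := by exact_mod_cast hj
    have hi0 : (0 : ℝ) ≤ i := Nat.cast_nonneg i
    have hj0 : (0 : ℝ) ≤ j := Nat.cast_nonneg j
    refine sq_le_sq' (by linarith) (by linarith)
  have hs0 : 0 ≤ ((i : ℝ) - j) ^ 2 := sq_nonneg _
  have hn0 : (0 : ℝ) ≤ n := Nat.cast_nonneg n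
  have hlow : (2 * ((T : ℝ) - n)) * ((i : ℝ) - j) ^ 2 ≤ shD n (2 * T + 1) (fun l => bt T l) i j := by
    rcases le_total i j with h | h
    · exact lower T n i j hi hj hT h
    · rw [shD_comm]
      have := lower T n j i hj hi hT h
      have h2 : ((j : ℝ) - i) ^ 2 = ((i : ℝ) - j) ^ 2 := by ring
      rw [h2] at this
      exact this
  have hup := upper T n i j
  rw [abs_le]
  constructor
  · nlinarith
  · nlinarith

theorem t_TENT : S_TENT := by
  intro n ε hε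
  obtain ⟨T0, hT0⟩ := exists_nat_gt ((2 * n + 1) * (n : ℝ) ^ 2 / ε)
  let T := T0 + n + 1
  have hTpos : (0 : ℝ) < 2 * (T : ℝ) := by
    have : (0 : ℝ) < (T : ℝ) := by
      exact_mod_cast (by omega : 0 < T)
    linarith
  have hTne : (T : ℝ) ≠ 0 := by
    intro h
    rw [h] at hTpos
    simp at hTpos
  refine ⟨2 * T + 1, fun l => bt T l, 1 / (2 * T), by positivity, ?_, ?_⟩
  · intro l hl
    apply bt_far
    have : 2 * T ≤ l := by omega
    exact_mod_cast this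
  · intro i j hi hj
    have h := main T n i j hi hj (by omega)
    have h2 : 1 / (2 * (T : ℝ)) * shD n (2 * T + 1) (fun l => bt T l) i j - ((i : ℝ) - j) ^ 2 =
        1 / (2 * (T : ℝ)) * (shD n (2 * T + 1) (fun l => bt T l) i j - 2 * T * ((i : ℝ) - j) ^ 2) := by
      field_simp
    rw [h2, abs_mul, abs_of_nonneg (by positivity : 0 ≤ 1 / (2 * (T : ℝ)))]
    have h3 : (2 * n + 1) * (n : ℝ) ^ 2 ≤ ε * T0 := by
      rw [div_lt_iff₀ hε] at hT0
      linarith
    have h4 : (T0 : ℝ) ≤ 2 * T := by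
      have : T0 ≤ 2 * T := by omega
      exact_mod_cast this
    calc 1 / (2 * (T : ℝ)) * |shD n (2 * T + 1) (fun l => bt T l) i j - 2 * T * ((i : ℝ) - j) ^ 2|
        ≤ 1 / (2 * (T : ℝ)) * (ε * (2 * T)) := by
          refine mul_le_mul_of_nonneg_left ?_ (by positivity)
          nlinarith
      _ = ε := by field_simp

end Pool.Agent.E8helper29.ER
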